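import Pool.Agent.H71.QT.LocOf
import Pool.Agent.H89.QT.Chi

/-!
# QT.LocFin : module LOC, final form
-/

set_option autoImplicit false

open scoped Pointwise NumberField
open Matrix IsDedekindDomain Pool.Agent.H71.Patch Pool.Agent.H89.IP Pool.Agent.H51.QT

namespace Pool.Agent.H71.QT

variable {F : Type} [Field F] [NumberField F] {K : IntermediateField F (AlgebraicClosure F)}

theorem loc (𝒦 : Known K) {θ : 𝒦.Eig} (A : Adm K (𝒦.om θ)) {l : ℕ} [Fact l.Prime]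
    (j : Qb →+* PadicAlgCl l) {ρ : GG K A.L →* GL (Fin 2) (PadicAlgCl l)} (hρ : IsPat 𝒦 A j ρ)
    {v : HeightOneSpectrum (𝓞 K)} {Q : Ideal (Zbar F)} (hv : Over K v Q)
    (hlev : ¬ 𝒦.lev θ ≤ v.asIdeal) (hl : (l : 𝓞 K) ∉ v.asIdeal) (hs : Split K A.L Q) :
    (∀ (g : GG K A.L) (k : ℕ), Acts Q g (nm v ^ k) → (ρ g).val.trace = j (𝒦.tr θ Q g)) ∧
      ∀ g : GG K A.L, Acts Q g 1 → ρ g = 1 :=
  loc_of 𝒦 A j hρ hv hlev hl hs fun u hu hs c hc hcK => 𝒦.quad θ A u Q hu hs c hc hcK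

end Pool.Agent.H71.QT
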