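import Pool.Agent.H71.Patch.Defs

/-!
# QT.Real : models of two dimensional representations over the field of traces

`iota : k → E` is a closed embedding of topological fields. An irreducible continuous representation
`ρ : G → GL_2(E)` whose traces on a dense set lie in `iota k` and with an element which has two
distinct eigenvalues in `iota k` is conjugate to a continuous representation in `GL_2(k)`.
-/

set_option autoImplicit false

open Matrix Topology

namespace Pool.Agent.H71.QT

variable {G : Type*} [Group G] {k E : Type*} [Field k] [Field E]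

/-- a two by two matrix with two distinct eigenvalues is diagonalizable -/
theorem exists_diag (M : Matrix (Fin 2) (Fin 2) E) (a b : E) (hab : a ≠ b)
    (hM : M.charpoly = (Polynomial.X - Polynomial.C a) * (Polynomial.X - Polynomial.C b)) :
    ∃ T : GL (Fin 2) E, T.val * M * (T⁻¹).val = !![a, 0; 0, b] := by
  have htr : M 0 0 + M 1 1 = a + b := by
    have h := congrArg (fun p => p.coeff 1) (M.charpoly_fin_two.symm.trans hM)
    simp only [Matrix.trace_fin_two] at h
    have h2 : ((Polynomial.X - Polynomial.C a) * (Polynomial.X - Polynomial.C b) :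
        Polynomial E) = Polynomial.X ^ 2 - Polynomial.C (a + b) * Polynomial.X +
          Polynomial.C (a * b) := by
      rw [Polynomial.C_add, Polynomial.C_mul]; ring
    rw [h2] at h
    simp [Polynomial.coeff_C, Polynomial.coeff_X_pow] at h
    linear_combination -h
  have hdet : M 0 0 * M 1 1 - M 0 1 * M 1 0 = a * b := by
    have h := congrArg (fun p => p.coeff 0) (M.charpoly_fin_two.symm.trans hM)
    simp only [Matrix.trace_fin_two] at h
    have h2 : ((Polynomial.X - Polynomial.C a) * (Polynomial.X - Polynomial.C b) :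
        Polynomial E) = Polynomial.X ^ 2 - Polynomial.C (a + b) * Polynomial.X +
          Polynomial.C (a * b) := by
      rw [Polynomial.C_add, Polynomial.C_mul]; ring
    rw [h2] at h
    simp [Polynomial.coeff_X, Polynomial.coeff_C, Polynomial.coeff_X_pow, Matrix.det_fin_two] at h
    exact h
  -- it is enough to find an invertible `P` with `M P = P diag`
  suffices h : ∃ P : Matrix (Fin 2) (Fin 2) E, P.det ≠ 0 ∧ M * P = P * !![a, 0; 0, b] by
    obtain ⟨P, hP, hMP⟩ := h
    have hPu : IsUnit P.det := isUnit_iff_ne_zero.2 hP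
    refine ⟨(Matrix.GeneralLinearGroup.mk'' P hPu)⁻¹, ?_⟩
    rw [inv_inv]
    have h1 : (Matrix.GeneralLinearGroup.mk'' P hPu).val = P := rfl
    have h2 : ((Matrix.GeneralLinearGroup.mk'' P hPu)⁻¹).val * P = 1 := by
      have h3 := congrArg Units.val (inv_mul_cancel (Matrix.GeneralLinearGroup.mk'' P hPu))
      rw [Units.val_mul, Units.val_one, h1] at h3
      exact h3
    rw [h1, Matrix.mul_assoc, hMP, ← Matrix.mul_assoc, h2, Matrix.one_mul]
  have hsub : a - b ≠ 0 := sub_ne_zero.2 hab
  by_cases hy : M 0 1 = 0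
  · by_cases hz : M 1 0 = 0
    · -- diagonal
      rw [hy, zero_mul, sub_zero] at hdet
      have h0 : (M 0 0 - a) * (M 0 0 - b) = 0 := by
        linear_combination (M 0 0) * htr - hdet
      rcases mul_eq_zero.1 h0 with h | h
      · have hx : M 0 0 = a := sub_eq_zero.1 h
        have hw : M 1 1 = b := by linear_combination htr - hx
        refine ⟨1, by simp, ?_⟩
        ext i j
        fin_cases i <;> fin_cases j <;> simp [hx, hw, hy, hz]
      · have hx : M 0 0 = b := sub_eq_zero.1 h
        have hw : M 1 1 = a := by linear_combination htr - hx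
        refine ⟨!![0, 1; 1, 0], by simp [Matrix.det_fin_two], ?_⟩
        ext i j
        fin_cases i <;> fin_cases j <;> simp [Matrix.mul_apply, hx, hw, hy, hz]
    · refine ⟨!![a - M 1 1, b - M 1 1; M 1 0, M 1 0], ?_, ?_⟩
      · rw [Matrix.det_fin_two]
        simp only [Matrix.of_apply, Matrix.cons_val', Matrix.cons_val_zero, Matrix.cons_val_one,
          Matrix.cons_val_fin_one]
        have : (a - M 1 1) * M 1 0 - (b - M 1 1) * M 1 0 = (a - b) * M 1 0 := by ring
        rw [this]
        exact mul_ne_zero hsub hz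
      · ext i j
        fin_cases i <;> fin_cases j <;> simp [Matrix.mul_apply, Fin.sum_univ_two]
        · linear_combination (-hdet) + a * htr
        · linear_combination (-hdet) + b * htr
        · ring
        · ring
  · refine ⟨!![M 0 1, M 0 1; a - M 0 0, b - M 0 0], ?_, ?_⟩
    · rw [Matrix.det_fin_two]
      simp only [Matrix.of_apply, Matrix.cons_val', Matrix.cons_val_zero, Matrix.cons_val_one,
        Matrix.cons_val_fin_one]
      have : M 0 1 * (b - M 0 0) - M 0 1 * (a - M 0 0) = -((a - b) * M 0 1) := by ring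
      rw [this]
      exact neg_ne_zero.2 (mul_ne_zero hsub hy)
    · ext i j
      fin_cases i <;> fin_cases j <;> simp [Matrix.mul_apply, Fin.sum_univ_two]
      · ring
      · ring
      · linear_combination (-hdet) + a * htr
      · linear_combination (-hdet) + b * htr

/-- an irreducible two dimensional representation has an element with a nonzero upper right
entry, and one with a nonzero lower left entry -/
theorem exists_entries (σ : G →* GL (Fin 2) E) (h : Patch.Irred σ) :
    (∃ g, (σ g).val 0 1 ≠ 0) ∧ ∃ g, (σ g).val 1 0 ≠ 0 := by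
  constructor
  · by_contra hcon
    push Not at hcon
    have h1 := h.2 (Submodule.span E {![0, 1]}) (by
      intro g x hx
      obtain ⟨c, rfl⟩ := Submodule.mem_span_singleton.1 hx
      refine Submodule.mem_span_singleton.2 ⟨c * (σ g).val 1 1, ?_⟩
      ext i
      fin_cases i <;> simp [Matrix.mulVec, dotProduct, Fin.sum_univ_two, hcon g, mul_comm])
    rcases h1 with h1 | h1
    · have h2 : (![0, 1] : Fin 2 → E) ∈ (⊥ : Submodule E (Fin 2 → E)) := by
        rw [← h1]; exact Submodule.mem_span_singleton_self _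
      have h3 := congrFun ((Submodule.mem_bot E).1 h2) 1
      simp at h3
    · have h2 : (![1, 0] : Fin 2 → E) ∈ (Submodule.span E {![0, 1]} : Submodule E (Fin 2 → E)) := by
        rw [h1]; trivial
      obtain ⟨c, hc⟩ := Submodule.mem_span_singleton.1 h2
      have h3 := congrFun hc 0
      simp at h3
  · by_contra hcon
    push Not at hcon
    have h1 := h.2 (Submodule.span E {![1, 0]}) (by
      intro g x hx
      obtain ⟨c, rfl⟩ := Submodule.mem_span_singleton.1 hx
      refine Submodule.mem_span_singleton.2 ⟨c * (σ g).val 0 0, ?_⟩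
      ext i
      fin_cases i <;> simp [Matrix.mulVec, dotProduct, Fin.sum_univ_two, hcon g, mul_comm])
    rcases h1 with h1 | h1
    · have h2 : (![1, 0] : Fin 2 → E) ∈ (⊥ : Submodule E (Fin 2 → E)) := by
        rw [← h1]; exact Submodule.mem_span_singleton_self _
      have h3 := congrFun ((Submodule.mem_bot E).1 h2) 0
      simp at h3
    · have h2 : (![0, 1] : Fin 2 → E) ∈ (Submodule.span E {![1, 0]} : Submodule E (Fin 2 → E)) := by
        rw [h1]; trivial
      obtain ⟨c, hc⟩ := Submodule.mem_span_singleton.1 h2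
      have h3 := congrFun hc 1
      simp at h3

/-- the conjugate of a representation -/
noncomputable def conj (T : GL (Fin 2) E) (ρ : G →* GL (Fin 2) E) : G →* GL (Fin 2) E :=
  (MulAut.conj T).toMonoidHom.comp ρ

theorem conj_apply (T : GL (Fin 2) E) (ρ : G →* GL (Fin 2) E) (g : G) :
    conj T ρ g = T * ρ g * T⁻¹ := rfl

theorem irred_conj (T : GL (Fin 2) E) (ρ : G →* GL (Fin 2) E) (h : Patch.Irred ρ) :
    Patch.Irred (conj T ρ) := by
  refine ⟨h.1, fun W hW => ?_⟩
  have hTT : ∀ x : Fin 2 → E, (T⁻¹).val *ᵥ (T.val *ᵥ x) = x := by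
    intro x
    rw [Matrix.mulVec_mulVec, ← Units.val_mul, inv_mul_cancel, Units.val_one, Matrix.one_mulVec]
  have hTT' : ∀ x : Fin 2 → E, T.val *ᵥ ((T⁻¹).val *ᵥ x) = x := by
    intro x
    rw [Matrix.mulVec_mulVec, ← Units.val_mul, mul_inv_cancel, Units.val_one, Matrix.one_mulVec]
  have h1 := h.2 (W.comap (Matrix.mulVecLin T.val)) (by
    intro g x hx
    rw [Submodule.mem_comap, Matrix.mulVecLin_apply] at hx ⊢
    have h2 := hW g _ hx
    rw [conj_apply, Units.val_mul, Units.val_mul, ← Matrix.mulVec_mulVec, ← Matrix.mulVec_mulVec,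
      hTT] at h2
    exact h2)
  rcases h1 with h1 | h1
  · left
    rw [Submodule.eq_bot_iff] at h1 ⊢
    intro x hx
    have h2 := h1 ((T⁻¹).val *ᵥ x) (by
      rw [Submodule.mem_comap, Matrix.mulVecLin_apply, hTT']; exact hx)
    rw [← hTT' x, h2, Matrix.mulVec_zero]
  · right
    rw [Submodule.eq_top_iff'] at h1 ⊢
    intro x
    have h2 := h1 ((T⁻¹).val *ᵥ x)
    rw [Submodule.mem_comap, Matrix.mulVecLin_apply, hTT'] at h2
    exact h2

theorem trace_conj (T : GL (Fin 2) E) (ρ : G →* GL (Fin 2) E) (g : G) :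
    (conj T ρ g).val.trace = (ρ g).val.trace := by
  rw [conj_apply, Units.val_mul, Matrix.trace_mul_comm, ← Units.val_mul, ← mul_assoc,
    inv_mul_cancel, one_mul]

/-- the algebraic part: after a conjugation the entries are in the subfield `iota k` -/
theorem exists_entries_mem (ι : k →+* E) (ρ : G →* GL (Fin 2) E) (hirr : Patch.Irred ρ)
    (htr : ∀ g, (ρ g).val.trace ∈ Set.range ι) (g0 : G) (a b : k) (hab : a ≠ b)
    (hch : (ρ g0).val.charpoly =
      (Polynomial.X - Polynomial.C (ι a)) * (Polynomial.X - Polynomial.C (ι b))) :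
    ∃ T : GL (Fin 2) E, ∀ g i j, (conj T ρ g).val i j ∈ ι.fieldRange := by
  have hab' : ι a ≠ ι b := fun h => hab (ι.injective h)
  obtain ⟨T1, hT1⟩ := exists_diag (ρ g0).val (ι a) (ι b) hab' hch
  have hdiag : (conj T1 ρ g0).val = !![ι a, 0; 0, ι b] := by
    rw [conj_apply, Units.val_mul, Units.val_mul]; exact hT1
  have htr1 : ∀ g, (conj T1 ρ g).val 0 0 + (conj T1 ρ g).val 1 1 ∈ ι.fieldRange := by
    intro g
    have h := htr g
    rw [← trace_conj T1 ρ g, Matrix.trace_fin_two] at h
    exact h
  have hsub : ι a - ι b ≠ 0 := sub_ne_zero.2 hab'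
  have hda : ∀ g, (conj T1 ρ g).val 0 0 ∈ ι.fieldRange ∧ (conj T1 ρ g).val 1 1 ∈ ι.fieldRange := by
    intro g
    have h1 := htr1 g
    have h2 := htr1 (g0 * g)
    rw [map_mul, Units.val_mul, hdiag] at h2
    simp [Matrix.mul_apply, Fin.sum_univ_two] at h2
    have ha : ι a ∈ ι.fieldRange := ⟨a, rfl⟩
    have hb : ι b ∈ ι.fieldRange := ⟨b, rfl⟩
    obtain ⟨u, hu⟩ := h1
    obtain ⟨w, hw⟩ := h2
    constructor
    · refine ⟨(w - b * u) / (a - b), ?_⟩
      rw [map_div₀, map_sub, map_sub, map_mul, hu, hw, div_eq_iff hsub]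
      ring
    · refine ⟨(a * u - w) / (a - b), ?_⟩
      rw [map_div₀, map_sub, map_sub, map_mul, hu, hw, div_eq_iff hsub]
      ring
  obtain ⟨⟨h1, hh1⟩, ⟨h2, hh2⟩⟩ := exists_entries (conj T1 ρ) (irred_conj T1 ρ hirr)
  have hprod : ∀ g h, (conj T1 ρ g).val 0 1 * (conj T1 ρ h).val 1 0 ∈ ι.fieldRange := by
    intro g h
    have h3 := (hda (g * h)).1
    rw [map_mul, Units.val_mul] at h3
    simp only [Matrix.mul_apply, Fin.sum_univ_two] at h3
    have h4 := sub_mem h3 (mul_mem (hda g).1 (hda h).1)
    rwa [add_sub_cancel_left] at h4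
  obtain ⟨d, hd⟩ : ∃ d : E, d = (conj T1 ρ h1).val 0 1 := ⟨_, rfl⟩
  have hd0 : d ≠ 0 := by rw [hd]; exact hh1
  -- the second conjugation
  have hT2 : IsUnit (!![1, 0; 0, d] : Matrix (Fin 2) (Fin 2) E).det := by
    rw [Matrix.det_fin_two]
    simpa using hd0
  set T2 : GL (Fin 2) E := ⟨!![1, 0; 0, d], !![1, 0; 0, d⁻¹], by
      ext i j; fin_cases i <;> fin_cases j <;> simp [hd0], by
      ext i j; fin_cases i <;> fin_cases j <;> simp [hd0]⟩ with hT2def
  refine ⟨T2 * T1, ?_⟩
  have hform : ∀ g, (conj (T2 * T1) ρ g).val =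
      !![(conj T1 ρ g).val 0 0, (conj T1 ρ g).val 0 1 * d⁻¹;
        d * (conj T1 ρ g).val 1 0, (conj T1 ρ g).val 1 1] := by
    intro g
    have h3 : conj (T2 * T1) ρ g = T2 * conj T1 ρ g * T2⁻¹ := by
      rw [conj_apply, conj_apply, _root_.mul_inv_rev]; group
    rw [h3, Units.val_mul, Units.val_mul]
    have h4 : (T2⁻¹).val = !![1, 0; 0, d⁻¹] := rfl
    have h5 : T2.val = !![1, 0; 0, d] := rfl
    rw [h4, h5]
    generalize (conj T1 ρ g).val = A
    rw [Matrix.eta_fin_two A, Matrix.mul_fin_two, Matrix.mul_fin_two]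
    ext i j
    fin_cases i <;> fin_cases j
    · simp
    · simp
    · simp
    · show (0 * A 0 0 + d * A 1 0) * 0 + (0 * A 0 1 + d * A 1 1) * d⁻¹ = A 1 1
      field_simp
      ring
  intro g i j
  rw [hform]
  fin_cases i <;> fin_cases j
  · exact (hda g).1
  · have h3 := hprod g h2
    have h4 := hprod h1 h2
    rw [← hd] at h4
    have h5 : (conj T1 ρ g).val 0 1 * d⁻¹ =
        ((conj T1 ρ g).val 0 1 * (conj T1 ρ h2).val 1 0) / (d * (conj T1 ρ h2).val 1 0) := by
      field_simp
    show (conj T1 ρ g).val 0 1 * d⁻¹ ∈ ι.fieldRange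
    rw [h5]
    exact div_mem h3 h4
  · show d * (conj T1 ρ g).val 1 0 ∈ ι.fieldRange
    rw [hd]
    exact hprod h1 g
  · exact (hda g).2

/-- REAL: the continuous model over `k` -/
theorem exists_model [TopologicalSpace G] [IsTopologicalGroup G] [TopologicalSpace k]
    [TopologicalSpace E] [IsTopologicalRing E] (ι : k →+* E) (hι : IsClosedEmbedding ι)
    (ρ : G →* GL (Fin 2) E) (hc : Continuous ρ) (hirr : Patch.Irred ρ) (D : Set G) (hD : Dense D)
    (htr : ∀ g ∈ D, (ρ g).val.trace ∈ Set.range ι) (g0 : G) (a b : k) (hab : a ≠ b)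
    (hch : (ρ g0).val.charpoly =
      (Polynomial.X - Polynomial.C (ι a)) * (Polynomial.X - Polynomial.C (ι b))) :
    ∃ (ρ' : G →* GL (Fin 2) k) (T : GL (Fin 2) E), Continuous ρ' ∧
      ∀ g, (ρ' g).val.map ι = (T * ρ g * T⁻¹).val := by
  have hct : Continuous fun g => (ρ g).val.trace :=
    (Units.continuous_val.comp hc).matrix_trace
  have htr' : ∀ g, (ρ g).val.trace ∈ Set.range ι := by
    have h1 : IsClosed {g | (ρ g).val.trace ∈ Set.range ι} :=
      hι.isClosed_range.preimage hct
    have h2 : {g | (ρ g).val.trace ∈ Set.range ι} = Set.univ :=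
      Set.eq_univ_iff_forall.2 fun g => (hD.closure_eq ▸ h1.closure_subset_iff.2 htr : _) trivial
    intro g
    have h3 : g ∈ {g | (ρ g).val.trace ∈ Set.range ι} := by rw [h2]; trivial
    exact h3
  obtain ⟨T, hT⟩ := exists_entries_mem ι ρ hirr htr' g0 a b hab hch
  choose f hf using hT
  have hf' : ∀ g, (Matrix.of (f g)).map ι = (conj T ρ g).val := by
    intro g; ext i j; exact hf g i j
  have hinj : Function.Injective fun M : Matrix (Fin 2) (Fin 2) k => M.map ι :=
    Matrix.map_injective ι.injective
  let F : G →* Matrix (Fin 2) (Fin 2) k :=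
    { toFun := fun g => Matrix.of (f g)
      map_one' := by
        apply hinj
        show (Matrix.of (f 1)).map ι = (1 : Matrix (Fin 2) (Fin 2) k).map ι
        rw [hf', map_one, Units.val_one, Matrix.map_one _ (map_zero ι) (map_one ι)]
      map_mul' := fun g h => by
        apply hinj
        show (Matrix.of (f (g * h))).map ι = (Matrix.of (f g) * Matrix.of (f h)).map ι
        rw [hf', map_mul, Units.val_mul, Matrix.map_mul, hf', hf'] }
  refine ⟨F.toHomUnits, T, ?_, fun g => ?_⟩
  · have hval : Continuous fun g => (F.toHomUnits g).val := by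
      refine continuous_matrix fun i j => ?_
      rw [hι.isInducing.continuous_iff]
      have h1 : (ι ∘ fun g => (F.toHomUnits g).val i j) = fun g => (T * ρ g * T⁻¹).val i j := by
        funext g
        exact hf g i j
      rw [h1]
      have h2 : Continuous fun g => (T * ρ g * T⁻¹).val := by
        have h3 : (fun g => (T * ρ g * T⁻¹).val) = fun g => T.val * (ρ g).val * (T⁻¹).val := by
          funext g; rw [Units.val_mul, Units.val_mul]
        rw [h3]
        exact (continuous_const.matrix_mul (Units.continuous_val.comp hc)).matrix_mul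
          continuous_const
      exact h2.matrix_elem i j
    rw [Units.continuous_iff]
    refine ⟨hval, ?_⟩
    have h1 : (fun g => ((F.toHomUnits g)⁻¹).val) = fun g => (F.toHomUnits g⁻¹).val := by
      funext g; rw [map_inv]
    rw [h1]
    exact hval.comp continuous_inv
  · exact hf' g

/-- a model over a subfield of an irreducible representation is irreducible -/
theorem irred_of_map (ι : k →+* E) (ρ : G →* GL (Fin 2) E) (hirr : Patch.Irred ρ)
    (ρ' : G →* GL (Fin 2) k) (T : GL (Fin 2) E)
    (h : ∀ g, (ρ' g).val.map ι = (T * ρ g * T⁻¹).val) : Patch.Irred ρ' := by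
  have hirr' := irred_conj T ρ hirr
  refine ⟨two_ne_zero, fun W hW => ?_⟩
  by_contra hcon
  push Not at hcon
  obtain ⟨hW0, hW1⟩ := hcon
  obtain ⟨v, hv, hv0⟩ := (Submodule.ne_bot_iff W).1 hW0
  -- every vector of `W` is a multiple of `v`
  have hline : ∀ x ∈ W, ∃ c : k, x = c • v := by
    intro x hx
    by_contra hx2
    push Not at hx2
    apply hW1
    have hli : LinearIndependent k ![v, x] := by
      rw [LinearIndependent.pair_iff' hv0]
      intro c hc
      exact hx2 c hc.symm
    have hspan := hli.span_eq_top_of_card_eq_finrank (by simp)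
    rw [eq_top_iff, ← hspan, Submodule.span_le]
    rintro _ ⟨i, rfl⟩
    fin_cases i
    · exact hv
    · exact hx
  have h1 := hirr'.2 (Submodule.span E {fun i => ι (v i)}) (by
    intro g x hx
    obtain ⟨c, rfl⟩ := Submodule.mem_span_singleton.1 hx
    obtain ⟨e, he⟩ := hline _ (hW g v hv)
    refine Submodule.mem_span_singleton.2 ⟨c * ι e, ?_⟩
    rw [conj_apply, ← h g, Matrix.mulVec_smul, mul_smul]
    congr 1
    ext i
    have h2 := congrFun he i
    rw [Pi.smul_apply, smul_eq_mul] at h2 ⊢
    rw [← map_mul, ← h2]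
    simp only [Matrix.mulVec, dotProduct, Matrix.map_apply, map_sum, map_mul])
  have hv0' : (fun i => ι (v i)) ≠ 0 := by
    intro h2
    apply hv0
    ext i
    have h3 := congrFun h2 i
    simpa using h3
  rcases h1 with h1 | h1
  · rw [Submodule.span_singleton_eq_bot] at h1
    exact hv0' h1
  · have h2 : Module.finrank E (⊤ : Submodule E (Fin 2 → E)) = 1 := by
      rw [← h1]
      exact finrank_span_singleton hv0'
    rw [finrank_top] at h2
    simp at h2

/-- characteristic polynomials of the model -/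
theorem charpoly_of_map (ι : k →+* E) (ρ : G →* GL (Fin 2) E) (ρ' : G →* GL (Fin 2) k)
    (T : GL (Fin 2) E) (h : ∀ g, (ρ' g).val.map ι = (T * ρ g * T⁻¹).val) (g : G) :
    (ρ' g).val.charpoly.map ι = (ρ g).val.charpoly := by
  rw [← Matrix.charpoly_map, h g, Units.val_mul, Units.val_mul, Matrix.charpoly_mul_comm,
    ← Matrix.mul_assoc, ← Units.val_mul, inv_mul_cancel, Units.val_one, Matrix.one_mul]

end Pool.Agent.H71.QT
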