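import Pool.Agent.H71.QT.MonB
import Pool.Agent.H51.QT.VQ
import Pool.Agent.H89.QT.Chi

/-!
# QT.LocV3 : module LOC without the monodromy theorem
-/

set_option autoImplicit false

open scoped Pointwise NumberField
open Matrix IsDedekindDomain Pool.Agent.H71.Patch Pool.Agent.H89.IP Pool.Agent.H51.QT

namespace Pool.Agent.H71.QT

variable {F : Type} [Field F] [NumberField F] {K : IntermediateField F (AlgebraicClosure F)}

/-- module LOC; the hypothesis `htame` is the tame relation (module MONab) -/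
theorem loc3_of (𝒦 : Known K) {θ : 𝒦.Eig} (A : Adm K (𝒦.om θ)) {l : ℕ} [Fact l.Prime]
    (j : Qb →+* PadicAlgCl l) {ρ : GG K A.L →* GL (Fin 2) (PadicAlgCl l)} (hρ : IsPat 𝒦 A j ρ)
    {v : HeightOneSpectrum (𝓞 K)} {Q : Ideal (Zbar F)} (hv : Over K v Q)
    (hlev : ¬ 𝒦.lev θ ≤ v.asIdeal) (hl : (l : 𝓞 K) ∉ v.asIdeal) (hs : Split K A.L Q)
    (htame : ∀ (i φ : GalK F) (q : ℕ), Acts Q i 1 → Acts Q φ q →
      Wild Q (φ * i * φ⁻¹ * (i ^ q)⁻¹)) :
    (∀ (g : GG K A.L) (k : ℕ), Acts Q g (nm v ^ k) → (ρ g).val.trace = j (𝒦.tr θ Q g)) ∧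
      ∀ g : GG K A.L, Acts Q g 1 → ρ g = 1 := by
  have : FiniteDimensional F K := Module.finite_of_finrank_pos (by rw [𝒦.deg]; norm_num)
  have hfL : FiniteDimensional F A.L := Module.finite_of_finrank_pos (by rw [A.deg]; norm_num)
  obtain ⟨u, hu⟩ := H19.QT.above_exists hv
  obtain ⟨f, -, hf⟩ := H19.QT.nm_pow hu hv
  obtain ⟨x, y, -, -, -, -, hxy, htr⟩ := 𝒦.tr_good θ v hlev
  have htrace := loc_trace 𝒦 A j hρ hu hv (fun h => hl ((H19.QT.mem_iff hu hv l).1 h)) x y htr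
    ⟨f, hf⟩ (fun g n h => H19.QT.acts_dec hv.1 h)
    (fun c hc hcK => 𝒦.quad θ A u Q hu hs c hc hcK)
  refine ⟨fun g k hg => by rw [htrace g k hg, (htr Q hv g g.2.1 k hg).1], ?_⟩
  have hopen : IsOpen ((GG K A.L : Subgroup (GalK F)) : Set (GalK F)) :=
    K.fixingSubgroup_isOpen.inter A.L.fixingSubgroup_isOpen
  have hlQ : (l : Zbar F) ∉ Q := by
    intro h
    apply hl
    rw [H19.QT.mem_v hv, map_natCast]
    exact h
  have hinj : Function.Injective j := j.injective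
  refine mono_of l (GG K A.L) hopen ρ hρ.1 hv (j x) (j y) ?_ ?_ (Wild Q) ?_ htame
  · intro m hm
    refine ⟨fun h => (hxy m hm).1 (hinj ?_), fun h => (hxy m hm).2 (hinj ?_)⟩
    · rw [map_pow, h, map_pow, map_mul, map_natCast]
    · rw [map_pow, h, map_pow, map_mul, map_natCast]
  · intro g k hg
    rw [htrace g k hg, map_add, map_pow, map_pow]
  · intro g hg M hM1 hM2
    exact wild_pow hv.1 hg Fact.out hlQ M

end Pool.Agent.H71.QT
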