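import Pool.Agent.H71.Patch.Defs

/-!
# QT.Loc : the local step

`trace_eq_of_sign` : two dimensional representations of a (Weil) group whose trace is that of an
unramified parameter on the elements where a ramified quadratic character is `-1`.
`trace_of_twists` : the input of it from two global quadratic twists of an induced representation.
`trivial_of_monodromy` : a representation with unramified trace and Frobenius eigenvalues whose
quotient is not the cardinality of the residue field is trivial on inertia.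
-/

set_option autoImplicit false

open Matrix

namespace Pool.Agent.H71.QT

variable {W : Type*} [Group W] {E : Type*} [Field E] [CharZero E]

omit [CharZero E] in
theorem trace_sq (A : Matrix (Fin 2) (Fin 2) E) : (A * A).trace = A.trace ^ 2 - 2 * A.det := by
  rw [Matrix.trace_fin_two, Matrix.trace_fin_two, Matrix.det_fin_two]
  simp only [Matrix.mul_apply, Fin.sum_univ_two]
  ring

omit [CharZero E] in
theorem mul_self_eq (A : Matrix (Fin 2) (Fin 2) E) : A * A = A.trace • A - A.det • 1 := by
  ext i j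
  rw [Matrix.trace_fin_two, Matrix.det_fin_two]
  fin_cases i <;> fin_cases j <;>
    simp [Matrix.mul_apply, Fin.sum_univ_two] <;> ring

/-- traces of `g s` and `g s^3` for `s` with `s^2 = 2 s - 1`, and conversely -/
theorem trace_eq_of_sign (ρ : W →* GL (Fin 2) E) (t : W → E) (μ : W →* ℤˣ) (s : W)
    (hs : μ s = -1) (ht : ∀ g, t (g * s) = t g) (ht1 : t 1 = 2)
    (h : ∀ g, μ g = -1 → (ρ g).val.trace = t g) (g : W) : (ρ g).val.trace = t g := by
  rcases Int.units_eq_one_or (μ g) with hg | hg
  swap
  · exact h g hg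
  have h1 : (ρ s).val.trace = 2 := by
    rw [h s hs]
    have h2 := ht 1
    rw [one_mul, ht1] at h2
    exact h2
  have h3 : (ρ (s * s * s)).val.trace = 2 := by
    rw [h _ (by rw [map_mul, map_mul, hs]; decide), ht, ht]
    have h2 := ht 1
    rw [one_mul, ht1] at h2
    exact h2
  obtain ⟨S, hS⟩ : ∃ S : Matrix (Fin 2) (Fin 2) E, S = (ρ s).val := ⟨_, rfl⟩
  obtain ⟨A, hA⟩ : ∃ A : Matrix (Fin 2) (Fin 2) E, A = (ρ g).val := ⟨_, rfl⟩
  rw [← hS] at h1
  have hSS := mul_self_eq S
  rw [h1] at hSS
  have hdet : S.det = 1 := by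
    rw [map_mul, map_mul, Units.val_mul, Units.val_mul, ← hS, hSS, Matrix.sub_mul,
      Matrix.smul_mul, Matrix.smul_mul, Matrix.one_mul, hSS, Matrix.trace_sub, Matrix.trace_smul,
      Matrix.trace_sub, Matrix.trace_smul, Matrix.trace_smul, Matrix.trace_smul, h1,
      Matrix.trace_one, Fintype.card_fin] at h3
    simp only [smul_eq_mul] at h3
    push_cast at h3
    have h4 : (6 : E) * (S.det - 1) = 0 := by linear_combination -h3
    rcases mul_eq_zero.1 h4 with h5 | h5
    · norm_num at h5
    · exact sub_eq_zero.1 h5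
  rw [hdet, one_smul] at hSS
  -- traces of `A S` and `A S^3`
  have h5 : (A * S).trace = t g := by
    have h6 := h (g * s) (by rw [map_mul, hg, hs, one_mul])
    rw [map_mul, Units.val_mul, ← hS, ← hA, ht] at h6
    exact h6
  have h7 : (A * (S * S * S)).trace = t g := by
    have h6 := h (g * (s * s * s)) (by rw [map_mul, map_mul, map_mul, hg, hs]; decide)
    have h8 : t (g * (s * s * s)) = t g := by
      rw [← mul_assoc, ← mul_assoc, ht, ht, ht]
    rw [map_mul, map_mul, map_mul, Units.val_mul, Units.val_mul, Units.val_mul, ← hS, ← hA,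
      h8] at h6
    exact h6
  have h9 : S * S * S = (3 : E) • S - (2 : E) • (1 : Matrix (Fin 2) (Fin 2) E) := by
    rw [hSS, Matrix.sub_mul, Matrix.smul_mul, Matrix.one_mul, hSS, smul_sub, smul_smul]
    module
  rw [h9, Matrix.mul_sub, Matrix.mul_smul, Matrix.mul_smul, Matrix.mul_one, Matrix.trace_sub,
    Matrix.trace_smul, Matrix.trace_smul, h5, smul_eq_mul, smul_eq_mul] at h7
  rw [← hA]
  have h10 : (2 : E) * (A.trace - t g) = 0 := by linear_combination -h7
  rcases mul_eq_zero.1 h10 with h11 | h11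
  · norm_num at h11
  · exact sub_eq_zero.1 h11

/-- the matrix form: traces of `A S`, `A S^3`, `S`, `S^3` -/
theorem trace_eq_of_odd (S A : Matrix (Fin 2) (Fin 2) E) (T : E) (h1 : S.trace = 2)
    (h3 : (S * S * S).trace = 2) (h5 : (A * S).trace = T) (h7 : (A * (S * S * S)).trace = T) :
    A.trace = T := by
  have hSS := mul_self_eq S
  rw [h1] at hSS
  have hdet : S.det = 1 := by
    rw [hSS, Matrix.sub_mul,
      Matrix.smul_mul, Matrix.smul_mul, Matrix.one_mul, hSS, Matrix.trace_sub, Matrix.trace_smul,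
      Matrix.trace_sub, Matrix.trace_smul, Matrix.trace_smul, Matrix.trace_smul, h1,
      Matrix.trace_one, Fintype.card_fin] at h3
    simp only [smul_eq_mul] at h3
    push_cast at h3
    have h4 : (6 : E) * (S.det - 1) = 0 := by linear_combination -h3
    rcases mul_eq_zero.1 h4 with h5 | h5
    · norm_num at h5
    · exact sub_eq_zero.1 h5
  rw [hdet, one_smul] at hSS
  have h9 : S * S * S = (3 : E) • S - (2 : E) • (1 : Matrix (Fin 2) (Fin 2) E) := by
    rw [hSS, Matrix.sub_mul, Matrix.smul_mul, Matrix.one_mul, hSS, smul_sub, smul_smul]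
    module
  rw [h9, Matrix.mul_sub, Matrix.mul_smul, Matrix.mul_smul, Matrix.mul_one, Matrix.trace_sub,
    Matrix.trace_smul, Matrix.trace_smul, h5, smul_eq_mul, smul_eq_mul] at h7
  have h10 : (2 : E) * (A.trace - T) = 0 := by linear_combination -h7
  rcases mul_eq_zero.1 h10 with h11 | h11
  · norm_num at h11
  · exact sub_eq_zero.1 h11

/-- two twists separate the two summands: `r`, `r'` the two traces, `t`, `t'` the two local
parameters; the twist is `-1` on the first and `1` on the second -/
theorem trace_of_twists (r r' t t' : E) (h1 : r + r' = t + t') (h2 : -r + r' = -t + t') :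
    r = t := by
  have h3 : (2 : E) * (r - t) = 0 := by linear_combination h1 - h2
  rcases mul_eq_zero.1 h3 with h4 | h4
  · norm_num at h4
  · exact sub_eq_zero.1 h4

/-- the characteristic polynomial from the traces of `g` and `g^2` -/
theorem charpoly_of_trace (ρ : W →* GL (Fin 2) E) (g : W) (α β : E)
    (h1 : (ρ g).val.trace = α + β) (h2 : (ρ (g * g)).val.trace = α ^ 2 + β ^ 2) :
    (ρ g).val.charpoly =
      (Polynomial.X - Polynomial.C α) * (Polynomial.X - Polynomial.C β) := by
  have hdet : (ρ g).val.det = α * β := by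
    rw [map_mul, Units.val_mul, trace_sq, h1] at h2
    have h3 : (2 : E) * ((ρ g).val.det - α * β) = 0 := by linear_combination -h2
    rcases mul_eq_zero.1 h3 with h4 | h4
    · norm_num at h4
    · exact sub_eq_zero.1 h4
  rw [Matrix.charpoly_fin_two, h1, hdet, Polynomial.C_add, Polynomial.C_mul]
  ring

/-- unipotent elements with a trivial power are trivial -/
theorem eq_one_of_pow (A : Matrix (Fin 2) (Fin 2) E) (htr : A.trace = 2) (hdet : A.det = 1)
    (m : ℕ) (hm : 0 < m) (h : A ^ m = 1) : A = 1 := by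
  have hAA := mul_self_eq A
  rw [htr, hdet, one_smul] at hAA
  have h1 : ∀ n : ℕ, A ^ n = 1 + (n : E) • (A - 1) := by
    intro n
    induction n with
    | zero => simp
    | succ n ih =>
      rw [pow_succ, ih, Matrix.add_mul, Matrix.one_mul, Matrix.smul_mul, Matrix.sub_mul,
        Matrix.one_mul, hAA]
      push_cast
      module
  rw [h1 m] at h
  have h2 : (m : E) • (A - 1) = 0 := by
    rw [add_eq_left] at h
    exact h
  rcases smul_eq_zero.1 h2 with h3 | h3
  · exact absurd (Nat.cast_eq_zero.1 h3) hm.ne'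
  · exact sub_eq_zero.1 h3

omit [CharZero E] in
/-- a nilpotent matrix with `P N = q N P`, `P` with eigenvalues `α`, `β` and `α ≠ q β`, `β ≠ q α` -/
theorem eq_zero_of_comm (P N : Matrix (Fin 2) (Fin 2) E) (α β q : E)
    (htr : P.trace = α + β) (hdet : P.det = α * β)
    (hN : N * N = 0) (hPN : P * N = q • (N * P)) (h1 : α ≠ q * β) (h2 : β ≠ q * α) : N = 0 := by
  by_contra hN0
  obtain ⟨x, hx⟩ : ∃ x : Fin 2 → E, N *ᵥ x ≠ 0 := by
    by_contra hcon
    push Not at hcon
    apply hN0
    ext i j
    have h3 := congrFun (hcon (Pi.single j 1)) i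
    rw [Matrix.mulVec_single_one] at h3
    exact h3
  obtain ⟨y, hy⟩ : ∃ y, y = N *ᵥ x := ⟨_, rfl⟩
  rw [← hy] at hx
  have hNy : N *ᵥ y = 0 := by rw [hy, Matrix.mulVec_mulVec, hN, Matrix.zero_mulVec]
  have hPNv : ∀ z, P *ᵥ (N *ᵥ z) = q • (N *ᵥ (P *ᵥ z)) := by
    intro z
    rw [Matrix.mulVec_mulVec, hPN, Matrix.smul_mulVec, ← Matrix.mulVec_mulVec]
  have hli : LinearIndependent E ![y, x] := by
    rw [LinearIndependent.pair_iff' hx]
    intro c hc
    apply hx
    rw [hy, ← hc, Matrix.mulVec_smul, hNy, smul_zero]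
  have hspan := hli.span_eq_top_of_card_eq_finrank (by simp)
  have hPx : P *ᵥ x ∈ Submodule.span E (Set.range ![y, x]) := by rw [hspan]; trivial
  rw [Matrix.range_cons, Matrix.range_cons, Matrix.range_empty, Set.union_empty,
    Set.singleton_union, Submodule.mem_span_pair] at hPx
  obtain ⟨e, m, hem⟩ := hPx
  have hPy : P *ᵥ y = (q * m) • y := by
    rw [hy, hPNv, ← hem, Matrix.mulVec_add, Matrix.mulVec_smul, Matrix.mulVec_smul, hNy, smul_zero,
      zero_add, smul_smul, ← hy]
  have hB : IsUnit (Matrix.of ![y, x]) := Matrix.linearIndependent_rows_iff_isUnit.1 hli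
  have hBd : (Matrix.of ![y, x]).det ≠ 0 :=
    ((Matrix.isUnit_iff_isUnit_det _).1 hB).ne_zero
  have hBP : (Matrix.of ![y, x]) * Pᵀ = !![q * m, 0; e, m] * (Matrix.of ![y, x]) := by
    have h3 : ∀ (z : Fin 2 → E) (j : Fin 2), ∑ k, z k * P j k = (P *ᵥ z) j := by
      intro z j
      simp only [Matrix.mulVec, dotProduct]
      exact Finset.sum_congr rfl fun k _ => mul_comm _ _
    ext i j
    fin_cases i
    · have h4 := h3 y j
      rw [hPy] at h4
      simp only [Matrix.mul_apply, Matrix.transpose_apply]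
      refine Eq.trans h4 ?_
      simp [Fin.sum_univ_two]
    · have h4 := h3 x j
      rw [← hem] at h4
      simp only [Matrix.mul_apply, Matrix.transpose_apply]
      refine Eq.trans h4 ?_
      simp [Fin.sum_univ_two]
  have hd : P.det = q * m * m := by
    have h3 := congrArg Matrix.det hBP
    rw [Matrix.det_mul, Matrix.det_mul, Matrix.det_transpose, mul_comm] at h3
    have h4 := mul_right_cancel₀ hBd h3
    rw [h4, Matrix.det_fin_two_of]
    ring
  have ht : P.trace = q * m + m := by
    have h3 : Pᵀ = (Matrix.of ![y, x])⁻¹ * (!![q * m, 0; e, m] * (Matrix.of ![y, x])) := by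
      rw [← hBP, ← Matrix.mul_assoc, Matrix.nonsing_inv_mul _ (isUnit_iff_ne_zero.2 hBd),
        Matrix.one_mul]
    rw [← Matrix.trace_transpose, h3, Matrix.trace_mul_comm, Matrix.mul_assoc,
      Matrix.mul_nonsing_inv _ (isUnit_iff_ne_zero.2 hBd), Matrix.mul_one, Matrix.trace_fin_two_of]
  have h3 : (α - q * m) * (α - m) = 0 := by
    rw [hdet] at hd
    rw [htr] at ht
    linear_combination α * ht - hd
  rcases mul_eq_zero.1 h3 with h4 | h4
  · apply h1
    have h5 : β = m := by
      rw [htr] at ht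
      linear_combination ht - h4
    rw [h5]; exact sub_eq_zero.1 h4
  · apply h2
    rw [htr] at ht
    linear_combination ht - (1 + q) * h4

/-- MON: a representation of a local group with unramified trace, `phi` a Frobenius element with
eigenvalues `α`, `β`, `α ≠ q^(+-1) β`, and a monodromy operator `N`, is trivial on inertia `I` -/
theorem trivial_of_monodromy (ρ : W →* GL (Fin 2) E) (I : Set W) (hI : ∀ s ∈ I, ∀ n : ℕ, s ^ n ∈ I)
    (htrI : ∀ s ∈ I, (ρ s).val.trace = 2) (φ : W) (α β q : E)
    (hφ1 : (ρ φ).val.trace = α + β) (hφ2 : (ρ φ).val.det = α * β) (h1 : α ≠ q * β)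
    (h2 : β ≠ q * α) (N : Matrix (Fin 2) (Fin 2) E) (hN : IsNilpotent N)
    (hφN : (ρ φ).val * N = q • (N * (ρ φ).val))
    (hmon : ∀ s ∈ I, ∃ m : ℕ, 0 < m ∧ ∃ c : E, (ρ (s ^ m)).val = 1 + c • N) :
    ∀ s ∈ I, ρ s = 1 := by
  have hNN : N * N = 0 := by
    have h3 := mul_self_eq N
    have h4 : N.trace = 0 := (Matrix.isNilpotent_trace_of_isNilpotent hN).eq_zero
    have h5 : N.det = 0 := by
      obtain ⟨k, hk⟩ := hN
      have h6 := congrArg Matrix.det hk
      rw [Matrix.det_pow] at h6
      rcases Nat.eq_zero_or_pos k with h7 | h7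
      · rw [h7, pow_zero] at hk
        have h8 := congrFun (congrFun hk 0) 0
        simp at h8
      · rw [Matrix.det_zero] at h6
        exact pow_eq_zero_iff h7.ne' |>.1 h6
    rw [h3, h4, h5, zero_smul, zero_smul, sub_zero]
  have hN0 := eq_zero_of_comm (ρ φ).val N α β q hφ1 hφ2 hNN hφN h1 h2
  intro s hs
  obtain ⟨m, hm, c, hc⟩ := hmon s hs
  rw [hN0, smul_zero, add_zero, map_pow, Units.val_pow_eq_pow_val] at hc
  have htr := htrI s hs
  have hdet : (ρ s).val.det = 1 := by
    have h3 := htrI (s ^ 2) (hI s hs 2)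
    rw [pow_two, map_mul, Units.val_mul, trace_sq, htr] at h3
    have h4 : (2 : E) * ((ρ s).val.det - 1) = 0 := by linear_combination -h3
    rcases mul_eq_zero.1 h4 with h5 | h5
    · norm_num at h5
    · exact sub_eq_zero.1 h5
  exact Units.ext (eq_one_of_pow _ htr hdet m hm hc)

end Pool.Agent.H71.QT
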