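import Pool.Agent.H51.QT.Base
import Pool.Agent.H71.QT.Loc

/-!
# QT.LocT : module LOC, traces

At a prime of `K` prime to the level whose place of `L` splits in `K L` the patched representation
of the Galois group of `K L` has the expected trace.
-/

set_option autoImplicit false

open scoped Pointwise NumberField
open Matrix IsDedekindDomain Pool.Agent.H71.Patch Pool.Agent.H89.IP Pool.Agent.H51.QT

namespace Pool.Agent.H71.QT

variable {F : Type} [Field F] [NumberField F] {K : IntermediateField F (AlgebraicClosure F)}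

omit [NumberField F] in
theorem acts_one {Q : Ideal (Zbar F)} : Acts Q (1 : GalK F) 1 := by
  intro x
  rw [one_smul, pow_one, sub_self]
  exact Q.zero_mem

omit [NumberField F] in
theorem acts_mul {Q : Ideal (Zbar F)} {m n : ℕ} {g h : GalK F}
    (hg : Acts Q g m) (hh : Acts Q h n) : Acts Q (g * h) (m * n) := by
  intro x
  have h1 := hg (h • x)
  have h2 : (h • x) ^ m - (x ^ n) ^ m ∈ Q := by
    obtain ⟨y, hy⟩ := sub_dvd_pow_sub_pow (h • x) (x ^ n) m
    rw [hy]
    exact Q.mul_mem_right _ (hh x)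
  have h3 : (g * h) • x - x ^ (m * n) = (g • (h • x) - (h • x) ^ m) +
      ((h • x) ^ m - (x ^ n) ^ m) := by
    rw [mul_smul, mul_comm m n, pow_mul]; ring
  rw [h3]
  exact Q.add_mem h1 h2

omit [NumberField F] in
theorem acts_pow' {Q : Ideal (Zbar F)} {m : ℕ} {g : GalK F} (hg : Acts Q g m) (k : ℕ) :
    Acts Q (g ^ k) (m ^ k) := by
  induction k with
  | zero => rw [pow_zero, pow_zero]; exact acts_one
  | succ k ih => rw [pow_succ, pow_succ]; exact acts_mul ih hg

/-- a subgroup `Gal(Fbar/K)` for a quadratic extension is normal -/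
theorem normal_of_quad (L : IntermediateField F (AlgebraicClosure F))
    (hL : Module.finrank F L = 2) : L.fixingSubgroup.Normal := by
  have : FiniteDimensional F L := Module.finite_of_finrank_pos (by rw [hL]; norm_num)
  apply Subgroup.normal_of_index_eq_two
  rw [← IntermediateField.finrank_eq_fixingSubgroup_index, hL]

theorem sq_mem_of_quad (L : IntermediateField F (AlgebraicClosure F))
    (hL : Module.finrank F L = 2) (g : GalK F) : g ^ 2 ∈ L.fixingSubgroup := by
  have : FiniteDimensional F L := Module.finite_of_finrank_pos (by rw [hL]; norm_num)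
  apply Subgroup.sq_mem_of_index_two
  rw [← IntermediateField.finrank_eq_fixingSubgroup_index, hL]

/-- there is an element of the Galois group of `L` outside that of `K` -/
theorem exists_out (hK : Module.finrank F K = 2) (L : IntermediateField F (AlgebraicClosure F))
    (hL : Module.finrank F L = 2) (hne : L ≠ K) : ∃ c ∈ L.fixingSubgroup, c ∉ K.fixingSubgroup := by
  by_contra hcon
  push Not at hcon
  have : FiniteDimensional F L := Module.finite_of_finrank_pos (by rw [hL]; norm_num)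
  have : FiniteDimensional F K := Module.finite_of_finrank_pos (by rw [hK]; norm_num)
  have h1 : L.fixingSubgroup ≤ K.fixingSubgroup := hcon
  have h2 := Subgroup.relIndex_mul_index h1
  rw [← IntermediateField.finrank_eq_fixingSubgroup_index,
    ← IntermediateField.finrank_eq_fixingSubgroup_index, hK, hL] at h2
  have h3 : L.fixingSubgroup.relIndex K.fixingSubgroup = 1 := by omega
  rw [Subgroup.relIndex_eq_one] at h3
  have h4 : L.fixingSubgroup = K.fixingSubgroup := le_antisymm h1 h3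
  apply hne
  have h5 := congrArg IntermediateField.fixedField h4
  rwa [InfiniteGalois.fixedField_fixingSubgroup, InfiniteGalois.fixedField_fixingSubgroup] at h5

/-- a quadratic character with open kernel as a continuous character of order two with values in a
field -/
theorem char_of_units {Γ : Type*} [Group Γ] [TopologicalSpace Γ] [IsTopologicalGroup Γ] {E : Type*}
    [Field E] [TopologicalSpace E] [IsTopologicalRing E] (χ : Γ →* ℤˣ)
    (h : IsOpen (χ.ker : Set Γ)) :
    ∃ ψ : Γ →* Eˣ, Continuous ψ ∧ ψ ^ 2 = 1 ∧ (∀ g, χ g = 1 → ((ψ g : Eˣ) : E) = 1) ∧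
      ∀ g, χ g = -1 → ((ψ g : Eˣ) : E) = -1 := by
  refine ⟨(Units.map (Int.castRingHom E).toMonoidHom).comp χ, ?_, ?_, ?_, ?_⟩
  · apply continuous_of_continuousAt_one
    have h1 : ∀ g ∈ (χ.ker : Set Γ), (Units.map (Int.castRingHom E).toMonoidHom).comp χ g = 1 := by
      intro g hg
      have h2 : χ g = 1 := hg
      rw [MonoidHom.comp_apply, h2, map_one]
    have h3 : (χ.ker : Set Γ) ∈ nhds (1 : Γ) := h.mem_nhds (one_mem χ.ker)
    unfold ContinuousAt
    rw [map_one]
    refine Filter.Tendsto.congr' ?_ tendsto_const_nhds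
    filter_upwards [h3] with g hg
    exact (h1 g hg).symm
  · ext g
    rw [MonoidHom.pow_apply, MonoidHom.comp_apply, ← map_pow]
    rcases Int.units_eq_one_or (χ g) with h1 | h1 <;> rw [h1] <;> simp
  · intro g hg
    rw [MonoidHom.comp_apply, hg, map_one, Units.val_one]
  · intro g hg
    rw [MonoidHom.comp_apply, hg]
    simp

/-- the trace, with its number theoretic inputs as hypotheses; `x`, `y` the roots of the Frobenius
polynomial -/
theorem loc_trace (𝒦 : Known K) {θ : 𝒦.Eig} (A : Adm K (𝒦.om θ)) {l : ℕ} [Fact l.Prime]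
    (j : Qb →+* PadicAlgCl l) {ρ : GG K A.L →* GL (Fin 2) (PadicAlgCl l)} (hρ : IsPat 𝒦 A j ρ)
    {u : HeightOneSpectrum (𝓞 F)} {v : HeightOneSpectrum (𝓞 K)} {Q : Ideal (Zbar F)}
    (hu : Above u Q) (hv : Over K v Q)
    (hlF : (l : 𝓞 F) ∉ u.asIdeal) (x y : Qb)
    (htr : ∀ Q, Over K v Q → ∀ g ∈ K.fixingSubgroup, ∀ k : ℕ, Acts Q g (nm v ^ k) →
      𝒦.tr θ Q g = x ^ k + y ^ k ∧ 𝒦.tr θ Q g⁻¹ = x⁻¹ ^ k + y⁻¹ ^ k)
    (hf : ∃ f : ℕ, nm v = nm u ^ f)
    (hdec : ∀ (g : GalK F) (n : ℕ), Acts Q g n → g ∈ Dec Q)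
    (hquad : ∀ c ∈ A.L.fixingSubgroup, c ∉ K.fixingSubgroup →
      ∃ χ : GG K A.L →* ℤˣ, IsOpen (χ.ker : Set (GG K A.L)) ∧
      (∀ g : GG K A.L, c * (g : GalK F) * c⁻¹ ∈ Dec Q → χ g = 1) ∧
      ∃ g : GG K A.L, Acts Q g 1 ∧ χ g = -1) :
    ∀ (g : GG K A.L) (k : ℕ), Acts Q g (nm v ^ k) →
      (ρ g).val.trace = j (x ^ k + y ^ k) := by
  obtain ⟨f, hf⟩ := hf
  obtain ⟨hcont, -, hpat⟩ := hρ
  obtain ⟨c, hcL, hcK⟩ := exists_out 𝒦.deg A.L A.deg A.ne
  obtain ⟨χ, hχo, hχ1, s, hs1, hs2⟩ := hquad c hcL hcK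
  obtain ⟨ψ, hψc, hψ2, hψ1, hψm⟩ := char_of_units (E := PadicAlgCl l) χ hχo
  have htr' : ∀ (g : GG K A.L) (k : ℕ), Acts Q g (nm v ^ k) →
      j (𝒦.tr θ Q g) = j (x ^ k + y ^ k) := by
    intro g k hg
    rw [(htr Q hv g g.2.1 k hg).1]
  -- the elements where the character is `-1`
  have hodd : ∀ (g : GG K A.L) (k : ℕ), Acts Q g (nm v ^ k) → χ g = -1 →
      (ρ g).val.trace = j (𝒦.tr θ Q g) := by
    intro g k hg hgχ
    have hW : Weil u Q g := ⟨f * k, Or.inl (by rw [pow_mul, ← hf]; exact hg)⟩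
    have hmem : c⁻¹ * (g : GalK F) * c ∈ GG K A.L := by
      refine ⟨?_, ?_⟩
      · have h1 := Subgroup.Normal.conj_mem (normal_of_quad K 𝒦.deg) (g : GalK F) g.2.1 c⁻¹
        rwa [inv_inv] at h1
      · have h1 := Subgroup.Normal.conj_mem (normal_of_quad A.L A.deg) (g : GalK F) g.2.2 c⁻¹
        rwa [inv_inv] at h1
    have h1 := hpat 1 continuous_const
      (by ext g; rw [MonoidHom.pow_apply, MonoidHom.one_apply, one_pow]) u Q hu hlF g hW c hcL hcK hmem
    have h2 := hpat ψ hψc hψ2 u Q hu hlF g hW c hcL hcK hmem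
    have h3 : χ ⟨_, hmem⟩ = 1 := by
      apply hχ1
      have h4 : c * (c⁻¹ * (g : GalK F) * c) * c⁻¹ = (g : GalK F) := by group
      rw [h4]
      exact hdec _ _ hg
    simp only [dif, MonoidHom.one_apply, Units.val_one, one_mul] at h1
    simp only [dif] at h2
    rw [hψm g hgχ, hψ1 _ h3] at h2
    have h5 : (2 : PadicAlgCl l) * (j ((A.eta g)⁻¹ : Qbˣ) *
        ((ρ g).val.trace - j (𝒦.tr θ Q g))) = 0 := by
      linear_combination h1 - h2
    have h6 : (j ((A.eta g)⁻¹ : Qbˣ) : PadicAlgCl l) ≠ 0 := by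
      rw [Ne, map_eq_zero]
      exact Units.ne_zero _
    rcases mul_eq_zero.1 h5 with h7 | h7
    · norm_num at h7
    · rcases mul_eq_zero.1 h7 with h8 | h8
      · exact absurd h8 h6
      · exact sub_eq_zero.1 h8
  -- the powers of `s` and the products with them
  have hs3 : Acts Q ((s * s * s : GG K A.L) : GalK F) 1 := acts_mul (acts_mul hs1 hs1) hs1
  have hgs : ∀ (g : GG K A.L) (k : ℕ), Acts Q g (nm v ^ k) → ∀ t : GG K A.L, Acts Q t 1 →
      Acts Q ((g * t : GG K A.L) : GalK F) (nm v ^ k) := by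
    intro g k hg t ht
    have h1 := acts_mul hg ht
    rwa [mul_one] at h1
  intro g k hg
  · rcases Int.units_eq_one_or (χ g) with h1 | h1
    swap
    · rw [hodd g k hg h1, htr' g k hg]
    refine trace_eq_of_odd (ρ s).val (ρ g).val _ ?_ ?_ ?_ ?_
    · have h2 : Acts Q (s : GalK F) (nm v ^ 0) := by rw [pow_zero]; exact hs1
      rw [hodd s 0 h2 hs2, htr' s 0 h2, pow_zero, pow_zero, map_add, map_one]
      norm_num
    · have h2 : Acts Q ((s * s * s : GG K A.L) : GalK F) (nm v ^ 0) := by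
        rw [pow_zero]; exact hs3
      have h3 := hodd (s * s * s) 0 h2 (by rw [map_mul, map_mul, hs2]; decide)
      rw [htr' _ 0 h2, pow_zero, pow_zero, map_add, map_one, map_mul, map_mul, Units.val_mul,
        Units.val_mul] at h3
      rw [h3]
      norm_num
    · have h2 := hgs g k hg s hs1
      have h3 := hodd (g * s) k h2 (by rw [map_mul, h1, hs2]; decide)
      rw [htr' _ k h2, map_mul, Units.val_mul] at h3
      exact h3
    · have h2 := hgs g k hg (s * s * s) hs3
      have h3 := hodd (g * (s * s * s)) k h2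
        (by rw [map_mul, map_mul, map_mul, h1, hs2]; decide)
      rw [htr' _ k h2, map_mul, map_mul, map_mul, Units.val_mul, Units.val_mul,
        Units.val_mul] at h3
      exact h3

end Pool.Agent.H71.QT
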