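import Pool.Agent.H71.QT.MonA
import Pool.Agent.H71.QT.LocT
import Pool.Agent.H19.QT.Deg

/-!
# QT.MonB : an `l`-adic representation with the expected traces is unramified (no monodromy theorem)

`mono_of` : module MON with the two facts about the inertia group (TAME and WILD) as hypotheses,
for an arbitrary predicate `Wd` (wild inertia).
-/

set_option autoImplicit false

open scoped Pointwise NumberField
open Matrix IsDedekindDomain Pool.Agent.H71.Patch Pool.Agent.H51.QT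

namespace Pool.Agent.H71.QT

variable {F : Type} [Field F] [NumberField F]

/-- a natural number prime to `l` is an `l`-adic unit -/
theorem norm_natCast_algCl (l : ℕ) [Fact l.Prime] (n : ℕ) (hn : ¬ l ∣ n) :
    ‖(n : PadicAlgCl l)‖ = 1 := by
  have h1 : (n : PadicAlgCl l) = ((n : ℚ_[l]) : PadicAlgCl l) := by
    push_cast
    rfl
  rw [h1, PadicAlgCl.norm_extends, Padic.norm_natCast_eq_one_iff]
  exact (Nat.Prime.coprime_iff_not_dvd Fact.out).2 hn

/-- a continuous function, additive on `I`, is zero at the elements of `I` whose order in every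
finite Galois group is prime to `l` -/
theorem wild_kill (l : ℕ) [Fact l.Prime] (H : Subgroup (GalK F)) (hH : IsOpen (H : Set (GalK F)))
    (I : Subgroup H) (b : H → PadicAlgCl l) (hb : Continuous b)
    (hadd : ∀ g ∈ I, ∀ h ∈ I, b (g * h) = b g + b h) (w : H) (hw : w ∈ I)
    (hn : ∀ M : IntermediateField F (AlgebraicClosure F), FiniteDimensional F M → IsGalois F M →
      ∃ n : ℕ, 0 < n ∧ ¬ l ∣ n ∧ (w : GalK F) ^ n ∈ M.fixingSubgroup) : b w = 0 := by
  by_contra hw0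
  have hb1 : b 1 = 0 := by
    have h5 := hadd 1 I.one_mem 1 I.one_mem
    rw [one_mul] at h5
    exact left_eq_add.1 h5
  have hpow : ∀ (n : ℕ), b (w ^ n) = n * b w := by
    intro n
    induction n with
    | zero => rw [pow_zero, hb1, Nat.cast_zero, zero_mul]
    | succ n ih => rw [pow_succ, hadd _ (I.pow_mem hw n) _ hw, ih]; push_cast; ring
  have hU : IsOpen {h : H | ‖b h‖ < ‖b w‖} := isOpen_lt (continuous_norm.comp hb) continuous_const
  have hV : IsOpen (Subtype.val '' {h : H | ‖b h‖ < ‖b w‖} : Set (GalK F)) :=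
    hH.isOpenMap_subtype_val _ hU
  have hV1 : (Subtype.val '' {h : H | ‖b h‖ < ‖b w‖} : Set (GalK F)) ∈ nhds (1 : GalK F) := by
    refine hV.mem_nhds ⟨1, ?_, rfl⟩
    show ‖b 1‖ < ‖b w‖
    rw [hb1, norm_zero]
    exact norm_pos_iff.2 hw0
  obtain ⟨M, hM⟩ := (InfiniteGalois.krullTopology_mem_nhds_one_iff_of_isGalois _).1 hV1
  obtain ⟨n, hn0, hln, hwn⟩ := hn M.toIntermediateField M.finiteDimensional M.isGalois
  obtain ⟨h, hh, hhw⟩ := hM hwn
  have h1 : h = w ^ n := Subtype.ext (by rw [hhw]; rfl)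
  have h2 : ‖b (w ^ n)‖ < ‖b w‖ := by rw [← h1]; exact hh
  rw [hpow, norm_mul, norm_natCast_algCl l n hln, one_mul] at h2
  exact lt_irrefl _ h2

/-- the elements of `H` in the inertia group of `Q` -/
def inertiaIn {Q : Ideal (Zbar F)} (hQ : Q.IsPrime) (H : Subgroup (GalK F)) : Subgroup H where
  carrier := {g | Acts Q (g : GalK F) 1}
  one_mem' := acts_one
  mul_mem' := fun hg hh => by
    have h1 := acts_mul hg hh
    rwa [mul_one] at h1
  inv_mem' := fun {g} hg => by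
    have h1 := H19.QT.acts_inv_mul hQ hg (acts_one (Q := Q))
    rwa [mul_one] at h1

/-- module MON, with TAME and WILD as hypotheses -/
theorem mono_of {K : IntermediateField F (AlgebraicClosure F)} [FiniteDimensional F K] (l : ℕ)
    [Fact l.Prime] (H : Subgroup (GalK F)) (hH : IsOpen (H : Set (GalK F)))
    (ρ : H →* GL (Fin 2) (PadicAlgCl l)) (hc : Continuous ρ)
    {v : HeightOneSpectrum (𝓞 K)} {Q : Ideal (Zbar F)} (hv : Over K v Q)
    (x y : PadicAlgCl l)
    (hxy : ∀ m : ℕ, 0 < m → x ^ m ≠ ((nm v : PadicAlgCl l) * y) ^ m ∧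
      y ^ m ≠ ((nm v : PadicAlgCl l) * x) ^ m)
    (htr : ∀ (g : H) (k : ℕ), Acts Q g (nm v ^ k) → (ρ g).val.trace = x ^ k + y ^ k)
    (Wd : GalK F → Prop)
    (hwild : ∀ g, Wd g → ∀ M : IntermediateField F (AlgebraicClosure F), FiniteDimensional F M →
      IsGalois F M → ∃ n : ℕ, 0 < n ∧ ¬ l ∣ n ∧ g ^ n ∈ M.fixingSubgroup)
    (htame : ∀ (i φ : GalK F) (q : ℕ), Acts Q i 1 → Acts Q φ q →
      Wd (φ * i * φ⁻¹ * (i ^ q)⁻¹)) :
    ∀ g : H, Acts Q g 1 → ρ g = 1 := by
  have hQ := hv.1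
  -- a Frobenius power in `H`
  obtain ⟨g₀, -, hg₀⟩ := H19.QT.exists_frob hv
  obtain ⟨m, hm, hmem⟩ : ∃ m : ℕ, 0 < m ∧ g₀ ^ m ∈ H := by
    have hfq := Subgroup.quotient_finite_of_isOpen H hH
    have hfi : H.FiniteIndex := Subgroup.finiteIndex_of_finite_quotient
    obtain ⟨m, hm, -, h1⟩ := Subgroup.exists_pow_mem_of_index_ne_zero hfi.index_ne_zero g₀
    exact ⟨m, hm, h1⟩
  have hφa : Acts Q ((⟨g₀ ^ m, hmem⟩ : H) : GalK F) (nm v ^ m) := acts_pow' hg₀ m
  have h4a : Acts Q ((⟨g₀ ^ m, hmem⟩ * ⟨g₀ ^ m, hmem⟩ : H) : GalK F) (nm v ^ (m + m)) := by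
    rw [pow_add]
    exact acts_mul hφa hφa
  have htrφ := htr _ m hφa
  have htrφ2 := htr _ (m + m) h4a
  have hdetφ : (ρ ⟨g₀ ^ m, hmem⟩).val.det = x ^ m * y ^ m := by
    rw [map_mul, Units.val_mul, trace_sq, htrφ, pow_add, pow_add] at htrφ2
    have h3 : (2 : PadicAlgCl l) * ((ρ ⟨g₀ ^ m, hmem⟩).val.det - x ^ m * y ^ m) = 0 := by
      linear_combination -htrφ2
    rcases mul_eq_zero.1 h3 with h4 | h4
    · norm_num at h4
    · exact sub_eq_zero.1 h4
  intro g hg
  refine mono_core ρ hc (inertiaIn hQ H) ?_ {w : H | Wd (w : GalK F)} ?_ ⟨g₀ ^ m, hmem⟩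
    (nm v ^ m) ?_ (x ^ m) (y ^ m) htrφ hdetφ ?_ ?_ g hg
  · intro i hi
    have h2 : Acts Q (i : GalK F) (nm v ^ 0) := by rw [pow_zero]; exact hi
    rw [htr i 0 h2, pow_zero, pow_zero]
    norm_num
  · intro b hb hadd w hw hwd
    exact wild_kill l H hH (inertiaIn hQ H) b hb hadd w hw (hwild w hwd)
  · intro i hi
    refine ⟨?_, ?_⟩
    · have h1 : Acts (((⟨g₀ ^ m, hmem⟩ : H) : GalK F) • Q)
          (((⟨g₀ ^ m, hmem⟩ : H) : GalK F) * i * ((⟨g₀ ^ m, hmem⟩ : H) : GalK F)⁻¹) 1 :=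
        H19.QT.acts_conj _ hi
      have h2 : ((⟨g₀ ^ m, hmem⟩ : H) : GalK F) • Q = Q :=
        MulAction.mem_stabilizer_iff.1 (H19.QT.acts_dec hQ hφa)
      rw [h2] at h1
      exact h1
    · exact htame i _ _ hi hφa
  · intro h
    apply (hxy m hm).1
    rw [h, mul_pow]
    push_cast
    ring
  · intro h
    apply (hxy m hm).2
    rw [h, mul_pow]
    push_cast
    ring

end Pool.Agent.H71.QT
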