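import Pool.Agent.H71.QT.LocT

/-!
# QT.LocK : module LOC of the proof for quadratic extensions of totally real fields (version two)

At a prime of `K` prime to the level whose place of `L` splits in `K L` the patched representation
of the Galois group of `K L` has the expected trace and is unramified.
-/

set_option autoImplicit false

open scoped Pointwise NumberField
open Matrix IsDedekindDomain Pool.Agent.H71.Patch Pool.Agent.H89.IP Pool.Agent.H51.QT

namespace Pool.Agent.H71.QT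

variable {F : Type} [Field F] [NumberField F] {K : IntermediateField F (AlgebraicClosure F)}

/-- the local part, with its number theoretic inputs as hypotheses -/
theorem loc_core (𝒦 : Known K) {θ : 𝒦.Eig} (A : Adm K (𝒦.om θ)) {l : ℕ} [Fact l.Prime]
    (j : Qb →+* PadicAlgCl l) {ρ : GG K A.L →* GL (Fin 2) (PadicAlgCl l)} (hρ : IsPat 𝒦 A j ρ)
    {u : HeightOneSpectrum (𝓞 F)} {v : HeightOneSpectrum (𝓞 K)} {Q : Ideal (Zbar F)}
    (hu : Above u Q) (hv : Over K v Q)
    (hlev : ¬ 𝒦.lev θ ≤ v.asIdeal) (hlF : (l : 𝓞 F) ∉ u.asIdeal) (hl : (l : 𝓞 K) ∉ v.asIdeal)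
    (hf : ∃ f : ℕ, nm v = nm u ^ f)
    (hdec : ∀ (g : GalK F) (n : ℕ), Acts Q g n → g ∈ Dec Q)
    (hfrob : ∃ g ∈ K.fixingSubgroup, Acts Q g (nm v))
    (hquad : ∀ c ∈ A.L.fixingSubgroup, c ∉ K.fixingSubgroup →
      ∃ χ : GG K A.L →* ℤˣ, IsOpen (χ.ker : Set (GG K A.L)) ∧
      (∀ g : GG K A.L, c * (g : GalK F) * c⁻¹ ∈ Dec Q → χ g = 1) ∧
      ∃ g : GG K A.L, Acts Q g 1 ∧ χ g = -1) :
    (∀ (g : GG K A.L) (k : ℕ), Acts Q g (nm v ^ k) → (ρ g).val.trace = j (𝒦.tr θ Q g)) ∧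
      ∀ g : GG K A.L, Acts Q g 1 → ρ g = 1 := by
  obtain ⟨f, hf⟩ := hf
  obtain ⟨hcont, -, hpat⟩ := hρ
  obtain ⟨x, y, hx0, hy0, -, -, hxy, htr⟩ := 𝒦.tr_good θ v hlev
  obtain ⟨c, hcL, hcK⟩ := exists_out 𝒦.deg A.L A.deg A.ne
  obtain ⟨χ, hχo, hχ1, s, hs1, hs2⟩ := hquad c hcL hcK
  obtain ⟨ψ, hψc, hψ2, hψ1, hψm⟩ := char_of_units (E := PadicAlgCl l) χ hχo
  have htr' : ∀ (g : GG K A.L) (k : ℕ), Acts Q g (nm v ^ k) →
      j (𝒦.tr θ Q g) = j (x ^ k + y ^ k) := by
    intro g k hg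
    rw [(htr Q hv g g.2.1 k hg).1]
  -- the elements where the character is `-1`
  have hodd : ∀ (g : GG K A.L) (k : ℕ), Acts Q g (nm v ^ k) → χ g = -1 →
      (ρ g).val.trace = j (𝒦.tr θ Q g) := by
    intro g k hg hgχ
    have hW : Weil u Q g := ⟨f * k, Or.inl (by rw [pow_mul, ← hf]; exact hg)⟩
    have hmem : c⁻¹ * (g : GalK F) * c ∈ GG K A.L := by
      refine ⟨?_, ?_⟩
      · have h1 := Subgroup.Normal.conj_mem (normal_of_quad K 𝒦.deg) (g : GalK F) g.2.1 c⁻¹
        rwa [inv_inv] at h1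
      · have h1 := Subgroup.Normal.conj_mem (normal_of_quad A.L A.deg) (g : GalK F) g.2.2 c⁻¹
        rwa [inv_inv] at h1
    have h1 := hpat 1 continuous_const
      (by ext g; rw [MonoidHom.pow_apply, MonoidHom.one_apply, one_pow]) u Q hu hlF g hW c hcL hcK hmem
    have h2 := hpat ψ hψc hψ2 u Q hu hlF g hW c hcL hcK hmem
    have h3 : χ ⟨_, hmem⟩ = 1 := by
      apply hχ1
      have h4 : c * (c⁻¹ * (g : GalK F) * c) * c⁻¹ = (g : GalK F) := by group
      rw [h4]
      exact hdec _ _ hg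
    simp only [dif, MonoidHom.one_apply, Units.val_one, one_mul] at h1
    simp only [dif] at h2
    rw [hψm g hgχ, hψ1 _ h3] at h2
    have h5 : (2 : PadicAlgCl l) * (j ((A.eta g)⁻¹ : Qbˣ) *
        ((ρ g).val.trace - j (𝒦.tr θ Q g))) = 0 := by
      linear_combination h1 - h2
    have h6 : (j ((A.eta g)⁻¹ : Qbˣ) : PadicAlgCl l) ≠ 0 := by
      rw [Ne, map_eq_zero]
      exact Units.ne_zero _
    rcases mul_eq_zero.1 h5 with h7 | h7
    · norm_num at h7
    · rcases mul_eq_zero.1 h7 with h8 | h8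
      · exact absurd h8 h6
      · exact sub_eq_zero.1 h8
  -- the powers of `s` and the products with them
  have hs3 : Acts Q ((s * s * s : GG K A.L) : GalK F) 1 := acts_mul (acts_mul hs1 hs1) hs1
  have hgs : ∀ (g : GG K A.L) (k : ℕ), Acts Q g (nm v ^ k) → ∀ t : GG K A.L, Acts Q t 1 →
      Acts Q ((g * t : GG K A.L) : GalK F) (nm v ^ k) := by
    intro g k hg t ht
    have h1 := acts_mul hg ht
    rwa [mul_one] at h1
  have htrace : ∀ (g : GG K A.L) (k : ℕ), Acts Q g (nm v ^ k) →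
      (ρ g).val.trace = j (x ^ k + y ^ k) := by
    intro g k hg
    rcases Int.units_eq_one_or (χ g) with h1 | h1
    swap
    · rw [hodd g k hg h1, htr' g k hg]
    refine trace_eq_of_odd (ρ s).val (ρ g).val _ ?_ ?_ ?_ ?_
    · have h2 : Acts Q (s : GalK F) (nm v ^ 0) := by rw [pow_zero]; exact hs1
      rw [hodd s 0 h2 hs2, htr' s 0 h2, pow_zero, pow_zero, map_add, map_one]
      norm_num
    · have h2 : Acts Q ((s * s * s : GG K A.L) : GalK F) (nm v ^ 0) := by
        rw [pow_zero]; exact hs3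
      have h3 := hodd (s * s * s) 0 h2 (by rw [map_mul, map_mul, hs2]; decide)
      rw [htr' _ 0 h2, pow_zero, pow_zero, map_add, map_one, map_mul, map_mul, Units.val_mul,
        Units.val_mul] at h3
      rw [h3]
      norm_num
    · have h2 := hgs g k hg s hs1
      have h3 := hodd (g * s) k h2 (by rw [map_mul, h1, hs2]; decide)
      rw [htr' _ k h2, map_mul, Units.val_mul] at h3
      exact h3
    · have h2 := hgs g k hg (s * s * s) hs3
      have h3 := hodd (g * (s * s * s)) k h2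
        (by rw [map_mul, map_mul, map_mul, h1, hs2]; decide)
      rw [htr' _ k h2, map_mul, map_mul, map_mul, Units.val_mul, Units.val_mul,
        Units.val_mul] at h3
      exact h3
  refine ⟨fun g k hg => by rw [htrace g k hg, htr' g k hg], ?_⟩
  -- inertia
  have hopen : IsOpen ((GG K A.L : Subgroup (GalK F)) : Set (GalK F)) := by
    have : FiniteDimensional F A.L := Module.finite_of_finrank_pos (by rw [A.deg]; norm_num)
    have : FiniteDimensional F K := Module.finite_of_finrank_pos (by rw [𝒦.deg]; norm_num)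
    exact K.fixingSubgroup_isOpen.inter A.L.fixingSubgroup_isOpen
  obtain ⟨N, hN, hφN, hmon⟩ := 𝒦.monodromy l (GG K A.L) inf_le_left hopen ρ hcont v Q hv hl
  obtain ⟨g₀, hg₀K, hg₀⟩ := hfrob
  have hφmem : g₀ ^ 2 ∈ GG K A.L :=
    ⟨pow_mem hg₀K 2, sq_mem_of_quad A.L A.deg g₀⟩
  have hφa : Acts Q ((⟨g₀ ^ 2, hφmem⟩ : GG K A.L) : GalK F) (nm v ^ 2) := acts_pow' hg₀ 2
  have h4a : Acts Q (((⟨g₀ ^ 2, hφmem⟩ * ⟨g₀ ^ 2, hφmem⟩ : GG K A.L)) : GalK F) (nm v ^ 4) := by
    have h1 := acts_mul hφa hφa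
    have h2 : nm v ^ 4 = nm v ^ 2 * nm v ^ 2 := by ring
    rw [h2]
    exact h1
  have htrφ := htrace _ 2 hφa
  have htrφ2 := htrace _ 4 h4a
  have hdetφ : (ρ ⟨g₀ ^ 2, hφmem⟩).val.det = j x ^ 2 * j y ^ 2 := by
    rw [map_mul, Units.val_mul, trace_sq, htrφ] at htrφ2
    rw [map_add, map_add, map_pow, map_pow, map_pow, map_pow] at htrφ2
    have h3 : (2 : PadicAlgCl l) * ((ρ ⟨g₀ ^ 2, hφmem⟩).val.det - j x ^ 2 * j y ^ 2) = 0 := by
      linear_combination -htrφ2
    rcases mul_eq_zero.1 h3 with h4 | h4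
    · norm_num at h4
    · exact sub_eq_zero.1 h4
  have hinj : Function.Injective j := j.injective
  intro g hg
  refine trivial_of_monodromy ρ {g : GG K A.L | Acts Q g 1} ?_ ?_ ⟨g₀ ^ 2, hφmem⟩ (j x ^ 2)
    (j y ^ 2) ((nm v : PadicAlgCl l) ^ 2) ?_ hdetφ ?_ ?_ N hN ?_ ?_ g hg
  · intro s hs n
    have h1 := acts_pow' hs n
    rw [one_pow] at h1
    exact h1
  · intro s hs
    have h2 : Acts Q (s : GalK F) (nm v ^ 0) := by rw [pow_zero]; exact hs
    rw [htrace s 0 h2, pow_zero, pow_zero, map_add, map_one]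
    norm_num
  · rw [htrφ, map_add, map_pow, map_pow]
  · intro h
    apply (hxy 2 (by norm_num)).1
    apply hinj
    rw [map_pow, h, mul_pow, map_mul, map_pow, map_pow, map_natCast]
  · intro h
    apply (hxy 2 (by norm_num)).2
    apply hinj
    rw [map_pow, h, mul_pow, map_mul, map_pow, map_pow, map_natCast]
  · exact hφN ⟨g₀ ^ 2, hφmem⟩ 2 hφa
  · intro s hs
    exact hmon s hs

end Pool.Agent.H71.QT
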