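import Pool.Agent.H71.QT.LocK
import Pool.Agent.H19.QT.Deg

/-!
# QT.LocOf : module LOC, with the quadratic character of module CHI as the only hypothesis
-/

set_option autoImplicit false

open scoped Pointwise NumberField
open Matrix IsDedekindDomain Pool.Agent.H71.Patch Pool.Agent.H89.IP Pool.Agent.H51.QT

namespace Pool.Agent.H71.QT

variable {F : Type} [Field F] [NumberField F] {K : IntermediateField F (AlgebraicClosure F)}

theorem loc_of (𝒦 : Known K) {θ : 𝒦.Eig} (A : Adm K (𝒦.om θ)) {l : ℕ} [Fact l.Prime]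
    (j : Qb →+* PadicAlgCl l) {ρ : GG K A.L →* GL (Fin 2) (PadicAlgCl l)} (hρ : IsPat 𝒦 A j ρ)
    {v : HeightOneSpectrum (𝓞 K)} {Q : Ideal (Zbar F)} (hv : Over K v Q)
    (hlev : ¬ 𝒦.lev θ ≤ v.asIdeal) (hl : (l : 𝓞 K) ∉ v.asIdeal) (hs : Split K A.L Q)
    (hquad : ∀ (u : HeightOneSpectrum (𝓞 F)), Above u Q → Split K A.L Q →
      ∀ c ∈ A.L.fixingSubgroup, c ∉ K.fixingSubgroup →
      ∃ χ : GG K A.L →* ℤˣ, IsOpen (χ.ker : Set (GG K A.L)) ∧
      (∀ g : GG K A.L, c * (g : GalK F) * c⁻¹ ∈ Dec Q → χ g = 1) ∧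
      ∃ g : GG K A.L, Acts Q g 1 ∧ χ g = -1) :
    (∀ (g : GG K A.L) (k : ℕ), Acts Q g (nm v ^ k) → (ρ g).val.trace = j (𝒦.tr θ Q g)) ∧
      ∀ g : GG K A.L, Acts Q g 1 → ρ g = 1 := by
  have : FiniteDimensional F K := Module.finite_of_finrank_pos (by rw [𝒦.deg]; norm_num)
  obtain ⟨u, hu⟩ := H19.QT.above_exists hv
  obtain ⟨f, -, hf⟩ := H19.QT.nm_pow hu hv
  exact loc_core 𝒦 A j hρ hu hv hlev (fun h => hl ((H19.QT.mem_iff hu hv l).1 h)) hl ⟨f, hf⟩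
    (fun g n h => H19.QT.acts_dec hv.1 h) (H19.QT.exists_frob hv) (hquad u hu hs)

end Pool.Agent.H71.QT
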