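import Pool.Agent.H71.QT.Real
import Pool.Agent.H71.QT.Loc

/-!
# QT.MonA : the algebraic part of the monodromy argument

`I` a group of unipotent matrices in `GL_2`: after a conjugation `ρ(i) = 1 + b(i) N` with
`N` the upper triangular nilpotent matrix, `b` additive and continuous. With the relation
`φ i φ⁻¹ = i ^ q` modulo elements killed by `b` one gets `ρ(φ) N = q N ρ(φ)`.
-/

set_option autoImplicit false

open Matrix

namespace Pool.Agent.H71.QT

variable {E : Type*} [Field E] [CharZero E]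

omit [CharZero E] in
/-- the standard form of a nilpotent matrix -/
theorem exists_std (N : Matrix (Fin 2) (Fin 2) E) (hN : N * N = 0) (hN0 : N ≠ 0) :
    ∃ T : GL (Fin 2) E, T.val * N * (T⁻¹).val = !![0, 1; 0, 0] := by
  obtain ⟨x, hx⟩ : ∃ x : Fin 2 → E, N *ᵥ x ≠ 0 := by
    by_contra hcon
    push Not at hcon
    apply hN0
    ext i j
    have h3 := congrFun (hcon (Pi.single j 1)) i
    rw [Matrix.mulVec_single_one] at h3
    exact h3
  obtain ⟨y, hy⟩ : ∃ y, y = N *ᵥ x := ⟨_, rfl⟩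
  rw [← hy] at hx
  have hNy : N *ᵥ y = 0 := by rw [hy, Matrix.mulVec_mulVec, hN, Matrix.zero_mulVec]
  have hli : LinearIndependent E ![y, x] := by
    rw [LinearIndependent.pair_iff' hx]
    intro c hc
    apply hx
    rw [hy, ← hc, Matrix.mulVec_smul, hNy, smul_zero]
  have hB : IsUnit (Matrix.of ![y, x]) := Matrix.linearIndependent_rows_iff_isUnit.1 hli
  have hBt : IsUnit (Matrix.of ![y, x])ᵀ := by
    rw [Matrix.isUnit_iff_isUnit_det, Matrix.det_transpose, ← Matrix.isUnit_iff_isUnit_det]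
    exact hB
  obtain ⟨B, hB'⟩ := hBt
  have hNB : N * B.val = B.val * !![0, 1; 0, 0] := by
    rw [hB']
    have h3 : ∀ (z : Fin 2 → E) (i : Fin 2), ∑ k, N i k * z k = (N *ᵥ z) i := fun z i => rfl
    ext i j
    fin_cases j
    · have h4 := h3 y i
      rw [hNy] at h4
      simp only [Matrix.mul_apply, Matrix.transpose_apply]
      refine Eq.trans h4 ?_
      simp [Fin.sum_univ_two]
    · have h4 := h3 x i
      rw [← hy] at h4
      simp only [Matrix.mul_apply, Matrix.transpose_apply]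
      refine Eq.trans h4 ?_
      simp [Fin.sum_univ_two]
  refine ⟨B⁻¹, ?_⟩
  rw [inv_inv, Matrix.mul_assoc, hNB, ← Matrix.mul_assoc, ← Units.val_mul, inv_mul_cancel,
    Units.val_one, Matrix.one_mul]

/-- a group of matrices of trace two: after a conjugation they are upper unitriangular -/
theorem exists_unip {W : Type*} [Group W] (ρ : W →* GL (Fin 2) E) (I : Subgroup W)
    (htr : ∀ i ∈ I, (ρ i).val.trace = 2) (i₀ : W) (hi₀ : i₀ ∈ I) (hne : ρ i₀ ≠ 1) :
    ∃ T : GL (Fin 2) E, (∀ i ∈ I, (conj T ρ i).val = !![1, (conj T ρ i).val 0 1; 0, 1]) ∧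
      (conj T ρ i₀).val 0 1 = 1 := by
  -- determinants
  have hdet : ∀ i ∈ I, (ρ i).val.det = 1 := by
    intro i hi
    have h3 := htr (i * i) (I.mul_mem hi hi)
    rw [map_mul, Units.val_mul, trace_sq, htr i hi] at h3
    have h4 : (2 : E) * ((ρ i).val.det - 1) = 0 := by linear_combination -h3
    rcases mul_eq_zero.1 h4 with h5 | h5
    · norm_num at h5
    · exact sub_eq_zero.1 h5
  have hsq : ∀ i ∈ I, ((ρ i).val - 1) * ((ρ i).val - 1) = 0 := by
    intro i hi
    have h3 := mul_self_eq (ρ i).val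
    rw [htr i hi, hdet i hi, one_smul] at h3
    rw [Matrix.sub_mul, Matrix.mul_sub, Matrix.mul_one, Matrix.one_mul, h3]
    module
  have hN0 : (ρ i₀).val - 1 ≠ 0 := by
    intro h
    apply hne
    exact Units.ext (sub_eq_zero.1 h)
  obtain ⟨T, hT⟩ := exists_std _ (hsq i₀ hi₀) hN0
  have hT1 : T.val * (T⁻¹).val = 1 := by rw [← Units.val_mul, mul_inv_cancel, Units.val_one]
  have hconj : ∀ i, (conj T ρ i).val = T.val * (ρ i).val * (T⁻¹).val := by
    intro i; rw [conj_apply, Units.val_mul, Units.val_mul]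
  have h0 : (conj T ρ i₀).val = !![1, 1; 0, 1] := by
    rw [Matrix.mul_sub, Matrix.sub_mul, Matrix.mul_one, hT1] at hT
    rw [hconj, sub_eq_iff_eq_add.1 hT]
    ext i j
    fin_cases i <;> fin_cases j <;> simp
  refine ⟨T, ?_, by rw [h0]; rfl⟩
  intro i hi
  have htr1 : (conj T ρ i).val.trace = 2 := by rw [trace_conj, htr i hi]
  have hdet1 : (conj T ρ i).val.det = 1 := by
    rw [hconj, Matrix.det_mul, Matrix.det_mul, hdet i hi, mul_one, ← Matrix.det_mul, hT1,
      Matrix.det_one]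
  have htr2 : (conj T ρ (i * i₀)).val.trace = 2 := by
    rw [trace_conj, htr _ (I.mul_mem hi hi₀)]
  rw [map_mul, Units.val_mul, h0] at htr2
  generalize (conj T ρ i).val = A at htr1 hdet1 htr2 ⊢
  rw [Matrix.trace_fin_two] at htr1 htr2
  rw [Matrix.det_fin_two] at hdet1
  simp only [Matrix.mul_apply, Fin.sum_univ_two] at htr2
  have e1 : A 0 0 * 1 + A 0 1 * 0 + (A 1 0 * 1 + A 1 1 * 1) = 2 := htr2
  have hc : A 1 0 = 0 := by linear_combination e1 - htr1
  rw [hc, mul_zero, sub_zero] at hdet1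
  have h5 : (A 0 0 - 1) ^ 2 = 0 := by
    have h6 : A 1 1 = 2 - A 0 0 := by linear_combination htr1
    rw [h6] at hdet1
    linear_combination -hdet1
  have h6 : A 0 0 = 1 := sub_eq_zero.1 (pow_eq_zero_iff (two_ne_zero) |>.1 h5)
  have h7 : A 1 1 = 1 := by linear_combination htr1 - h6
  ext i j
  fin_cases i <;> fin_cases j <;> simp [h6, h7, hc]

/-- MON, abstract form -/
theorem mono_core {W : Type*} [Group W] [TopologicalSpace W] [TopologicalSpace E]
    [IsTopologicalRing E] (ρ : W →* GL (Fin 2) E) (hc : Continuous ρ) (I : Subgroup W)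
    (htr : ∀ i ∈ I, (ρ i).val.trace = 2) (P : Set W)
    (hP : ∀ b : W → E, Continuous b → (∀ g ∈ I, ∀ h ∈ I, b (g * h) = b g + b h) →
      ∀ w ∈ I, w ∈ P → b w = 0)
    (φ : W) (q : ℕ)
    (hφ : ∀ i ∈ I, φ * i * φ⁻¹ ∈ I ∧ φ * i * φ⁻¹ * (i ^ q)⁻¹ ∈ P)
    (α β : E) (h1 : (ρ φ).val.trace = α + β) (h2 : (ρ φ).val.det = α * β)
    (h3 : α ≠ (q : E) * β) (h4 : β ≠ (q : E) * α) :
    ∀ i ∈ I, ρ i = 1 := by
  by_contra hcon
  push Not at hcon
  obtain ⟨i₀, hi₀, hne⟩ := hcon
  obtain ⟨T, hT, hT0⟩ := exists_unip ρ I htr i₀ hi₀ hne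
  obtain ⟨b, hb⟩ : ∃ b : W → E, b = fun g => (conj T ρ g).val 0 1 := ⟨_, rfl⟩
  have hbv : ∀ g, (conj T ρ g).val 0 1 = b g := fun g => by rw [hb]
  have hadd : ∀ g ∈ I, ∀ h ∈ I, b (g * h) = b g + b h := by
    intro g hg h hh
    have h5 := congrArg (fun M : Matrix (Fin 2) (Fin 2) E => M 0 1)
      (congrArg Units.val (map_mul (conj T ρ) g h))
    simp only [Units.val_mul] at h5
    rw [hT g hg, hT h hh, hbv, hbv, hbv] at h5
    rw [h5]
    simp [Matrix.mul_apply, Fin.sum_univ_two, add_comm]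
  have hcont : Continuous b := by
    rw [hb]
    have h5 : Continuous fun g => (conj T ρ g).val := by
      have h6 : (fun g => (conj T ρ g).val) = fun g => T.val * (ρ g).val * (T⁻¹).val := by
        funext g; rw [conj_apply, Units.val_mul, Units.val_mul]
      rw [h6]
      exact (continuous_const.matrix_mul (Units.continuous_val.comp hc)).matrix_mul continuous_const
    exact h5.matrix_elem 0 1
  have hkill := hP b hcont hadd
  have hb1 : b 1 = 0 := by
    have h5 := hadd 1 I.one_mem 1 I.one_mem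
    rw [one_mul] at h5
    exact left_eq_add.1 h5
  have hpow : ∀ (n : ℕ) (i : W), i ∈ I → b (i ^ n) = n * b i := by
    intro n i hi
    induction n with
    | zero => rw [pow_zero, hb1, Nat.cast_zero, zero_mul]
    | succ n ih => rw [pow_succ, hadd _ (I.pow_mem hi n) _ hi, ih]; push_cast; ring
  have hconjb : ∀ i ∈ I, b (φ * i * φ⁻¹) = q * b i := by
    intro i hi
    obtain ⟨h5, h6⟩ := hφ i hi
    have h7 : φ * i * φ⁻¹ = (φ * i * φ⁻¹ * (i ^ q)⁻¹) * i ^ q := by group
    have h8 : φ * i * φ⁻¹ * (i ^ q)⁻¹ ∈ I := I.mul_mem h5 (I.inv_mem (I.pow_mem hi q))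
    rw [h7, hadd _ h8 _ (I.pow_mem hi q), hkill _ h8 h6, zero_add, hpow q i hi]
  -- the matrix `N`
  have hPN : (conj T ρ φ).val * !![0, 1; 0, 0] =
      (q : E) • (!![0, 1; 0, 0] * (conj T ρ φ).val) := by
    have h5 : conj T ρ (φ * i₀ * φ⁻¹) * conj T ρ φ = conj T ρ φ * conj T ρ i₀ := by
      rw [← map_mul, ← map_mul]; group
    have h6 := congrArg Units.val h5
    rw [Units.val_mul, Units.val_mul, hT _ (hφ i₀ hi₀).1, hT i₀ hi₀, hbv, hbv,
      hconjb i₀ hi₀] at h6
    have h7 : b i₀ = 1 := by rw [← hbv]; exact hT0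
    rw [h7, mul_one] at h6
    have h8 : (!![1, (q : E); 0, 1] : Matrix (Fin 2) (Fin 2) E) = 1 + (q : E) • !![0, 1; 0, 0] := by
      ext i j; fin_cases i <;> fin_cases j <;> simp
    have h9 : (!![1, 1; 0, 1] : Matrix (Fin 2) (Fin 2) E) = 1 + !![0, 1; 0, 0] := by
      ext i j; fin_cases i <;> fin_cases j <;> simp
    rw [h8, h9, Matrix.add_mul, Matrix.one_mul, Matrix.mul_add, Matrix.mul_one,
      Matrix.smul_mul] at h6
    exact (add_left_cancel h6).symm
  have hN : (!![0, 1; 0, 0] : Matrix (Fin 2) (Fin 2) E) * !![0, 1; 0, 0] = 0 := by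
    ext i j; fin_cases i <;> fin_cases j <;> simp
  have hdetc : (conj T ρ φ).val.det = α * β := by
    rw [conj_apply, Units.val_mul, Units.val_mul, Matrix.det_mul, Matrix.det_mul, mul_comm,
      ← mul_assoc, ← Matrix.det_mul, ← Units.val_mul, inv_mul_cancel, Units.val_one,
      Matrix.det_one, one_mul, h2]
  have h5 := eq_zero_of_comm (conj T ρ φ).val !![0, 1; 0, 0] α β q
    (by rw [trace_conj, h1]) hdetc hN hPN h3 h4
  have h6 := congrFun (congrFun h5 0) 1
  simp at h6

end Pool.Agent.H71.QT
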